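import Pool.Agent.N684.BK.Stm
import Pool.Agent.W834.NG.Graph

set_option autoImplicit false

/-!
# Part FIN: all numbers of vertices, and the numerical part
-/

namespace Pool.Agent.N353.BK.FIN

open Pool.Agent.N684.BK
open Pool.Agent.W834.NG (NoK free_of_noK noK_map)

theorem noK_of_free {V : Type*} {G : SimpleGraph V} {s t : ℕ}
    (h : (completeBipartiteGraph (Fin s) (Fin t)).Free G) : NoK G s t := by
  rintro ⟨x, y, hx, hy, hadj⟩
  apply h
  refine ⟨⟨⟨Sum.elim x y, ?_⟩, ?_⟩⟩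
  · rintro (a | a) (b | b) hab
    · simp [completeBipartiteGraph] at hab
    · exact hadj a b
    · exact (hadj b a).symm
    · simp [completeBipartiteGraph] at hab
  · rintro (a | a) (b | b) hab
    · exact congrArg Sum.inl (hx hab)
    · exact absurd hab (hadj a b).ne
    · exact absurd hab (hadj b a).ne'
    · exact congrArg Sum.inr (hy hab)

/-- monotonicity in the number of vertices -/
theorem ex_mono {s t : ℕ} (hs : 0 < s) (ht : 0 < t) {n n' : ℕ} (hn : n ≤ n') :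
    SimpleGraph.extremalNumber n (completeBipartiteGraph (Fin s) (Fin t)) ≤
      SimpleGraph.extremalNumber n' (completeBipartiteGraph (Fin s) (Fin t)) := by
  classical
  rw [← Fintype.card_fin n, SimpleGraph.extremalNumber_le_iff]
  intro G _ hG
  let e : Fin n ↪ Fin n' := Fin.castLEEmb hn
  have h1 := SimpleGraph.card_edgeFinset_le_extremalNumber
    (free_of_noK (noK_map hs ht (noK_of_free hG) e) t le_rfl)
  rw [Fintype.card_fin] at h1
  refine le_trans (le_of_eq ?_) h1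
  rw [← SimpleGraph.card_edgeFinset_map e G]
  congr 2
  exact Subsingleton.elim _ _

theorem ex_zero {s n : ℕ} (hn : s ≤ n) :
    SimpleGraph.extremalNumber n (completeBipartiteGraph (Fin s) (Fin 0)) = 0 := by
  classical
  rw [← Nat.le_zero, ← Fintype.card_fin n, SimpleGraph.extremalNumber_le_iff]
  intro G _ hG
  exfalso
  apply hG
  refine ⟨⟨⟨fun a => Sum.elim (Fin.castLE hn) (fun b => b.elim0) a, ?_⟩, ?_⟩⟩
  · rintro (a | a) (b | b) hab
    · simp [completeBipartiteGraph] at hab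
    · exact b.elim0
    · exact a.elim0
    · exact a.elim0
  · rintro (a | a) (b | b) hab
    · exact congrArg Sum.inl (Fin.castLE_injective hn hab)
    · exact b.elim0
    · exact a.elim0
    · exact a.elim0

theorem one_le_ex {s t : ℕ} (hs : 2 ≤ s) (ht : 0 < t) {n : ℕ} (hn : 2 ≤ n) :
    1 ≤ SimpleGraph.extremalNumber n (completeBipartiteGraph (Fin s) (Fin t)) := by
  have h1 := Pool.Agent.W834.NG.le_extremal (⊤ : SimpleGraph (Fin 2)) (s := s) (r := 1) (by omega)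
    (by omega) (by
    rintro ⟨x, y, hx, -, hadj⟩
    have h1 := (hadj ⟨0, by omega⟩ 0).ne
    have h2 := (hadj ⟨1, by omega⟩ 0).ne
    have h3 : x ⟨0, by omega⟩ ≠ x ⟨1, by omega⟩ := fun h => by
      have := hx h
      simp at this
    generalize x ⟨0, by omega⟩ = a at h1 h3
    generalize x ⟨1, by omega⟩ = b at h2 h3
    generalize y 0 = c at h1 h2
    revert h1 h2 h3
    revert a b c
    decide) n (by simpa using hn) t ht 1 (fun v => ⟨{v + 1}, by simp, by
      intro w hw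
      rw [Finset.mem_singleton] at hw
      subst hw
      rw [SimpleGraph.top_adj]
      fin_cases v <;> decide⟩)
  rw [Fintype.card_fin] at h1
  omega

theorem FIN : S_FIN := by
  rintro s t hs ⟨p₀, hp₀⟩
  have hs0 : 0 < s := by omega
  have hsR : (0 : ℝ) < s := by exact_mod_cast hs0
  have ht : 0 < t := by
    rcases Nat.eq_zero_or_pos t with rfl | h
    · exfalso
      obtain ⟨p, hp1, hp2⟩ := Nat.exists_infinite_primes (max p₀ s)
      have h1 := hp₀ p (le_trans (le_max_left _ _) hp1) hp2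
      have h2 : s ≤ 4 * p ^ s := by
        have h3 : p ≤ p ^ s := Nat.le_self_pow (by omega) p
        have h4 := le_trans (le_max_right _ _) hp1
        omega
      rw [ex_zero h2] at h1
      have h3 : 0 < p ^ (2 * s - 1) := pow_pos hp2.pos _
      omega
    · exact h
  have hexp0 : (0 : ℝ) ≤ 2 - 1 / (s : ℝ) := by
    have : 1 / (s : ℝ) ≤ 1 := by
      rw [div_le_one hsR]
      exact_mod_cast hs0
    linarith
  have hexp2 : 2 - 1 / (s : ℝ) ≤ 2 := by
    have : 0 ≤ 1 / (s : ℝ) := by positivity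
    linarith
  have hpow : ∀ x : ℝ, 0 ≤ x → (x ^ s) ^ (2 - 1 / (s : ℝ)) = x ^ (2 * s - 1) := by
    intro x hx
    rw [← Real.rpow_natCast x s, ← Real.rpow_mul hx, ← Real.rpow_natCast x (2 * s - 1)]
    congr 1
    rw [Nat.cast_sub (by omega)]
    push_cast
    field_simp
  set N0 : ℕ := 4 * (2 * p₀ + 2) ^ s with hN0
  have hN0pos : 0 < N0 := by positivity
  have hN0R : (0 : ℝ) < N0 := by exact_mod_cast hN0pos
  refine ⟨min (1 / (64 * 2 ^ (2 * s - 1))) (1 / (N0 : ℝ) ^ 2), by positivity, ?_⟩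
  intro n hn
  set ex := SimpleGraph.extremalNumber n (completeBipartiteGraph (Fin s) (Fin t)) with hex
  have hex0 : (0 : ℝ) ≤ ex := by positivity
  have hnn : (0 : ℝ) ≤ (n : ℝ) ^ (2 - 1 / (s : ℝ)) := by positivity
  rcases lt_or_ge n N0 with hlt | hge
  · have h1 : 1 ≤ ex := one_le_ex hs ht hn
    have h2 : (n : ℝ) ^ (2 - 1 / (s : ℝ)) ≤ (N0 : ℝ) ^ 2 := by
      calc (n : ℝ) ^ (2 - 1 / (s : ℝ)) ≤ (n : ℝ) ^ (2 : ℝ) :=
            Real.rpow_le_rpow_of_exponent_le (by exact_mod_cast (by omega : 1 ≤ n)) hexp2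
        _ = (n : ℝ) ^ 2 := Real.rpow_two _
        _ ≤ (N0 : ℝ) ^ 2 := by
          have : (n : ℝ) ≤ N0 := by exact_mod_cast hlt.le
          gcongr
    calc min (1 / (64 * 2 ^ (2 * s - 1))) (1 / (N0 : ℝ) ^ 2) * (n : ℝ) ^ (2 - 1 / (s : ℝ)) ≤
          (1 / (N0 : ℝ) ^ 2) * (N0 : ℝ) ^ 2 := by
            apply mul_le_mul (min_le_right _ _) h2 hnn (by positivity)
      _ = 1 := by field_simp
      _ ≤ ex := by exact_mod_cast h1
  · obtain ⟨m, hm1, hm2⟩ : ∃ m : ℕ, 4 * m ^ s ≤ n ∧ n < 4 * (m + 1) ^ s := by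
      refine ⟨Nat.findGreatest (fun k => 4 * k ^ s ≤ n) n, ?_, ?_⟩
      · exact Nat.findGreatest_spec (P := fun k => 4 * k ^ s ≤ n) (Nat.zero_le n) (by
          rw [zero_pow (by omega)]
          omega)
      · by_contra hcon
        rw [not_lt] at hcon
        have h1 : Nat.findGreatest (fun k => 4 * k ^ s ≤ n) n + 1 ≤ n := by
          refine le_trans ?_ hcon
          have := Nat.le_self_pow (by omega : s ≠ 0) (Nat.findGreatest (fun k => 4 * k ^ s ≤ n) n + 1)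
          omega
        exact Nat.findGreatest_is_greatest (Nat.lt_succ_self _) h1 hcon
    have hm : 2 * p₀ + 2 ≤ m := by
      by_contra hcon
      have h1 : m + 1 ≤ 2 * p₀ + 2 := by omega
      have h2 : 4 * (m + 1) ^ s ≤ 4 * (2 * p₀ + 2) ^ s :=
        Nat.mul_le_mul_left 4 (Nat.pow_le_pow_left h1 s)
      omega
    obtain ⟨p, hp, hp1, hp2⟩ := Nat.exists_prime_lt_and_le_two_mul (m / 2) (by omega)
    have hpm : p ≤ m := by omega
    have hmp : m + 1 ≤ 2 * p := by omega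
    have hpp : p₀ ≤ p := by omega
    have h1 := hp₀ p hpp hp
    have h2 : SimpleGraph.extremalNumber (4 * p ^ s) (completeBipartiteGraph (Fin s) (Fin t)) ≤ ex :=
      ex_mono hs0 ht ((Nat.mul_le_mul_left 4 (Nat.pow_le_pow_left hpm s)).trans hm1)
    have h3 : (p : ℝ) ^ (2 * s - 1) ≤ 4 * (ex : ℝ) := by
      have h4 : p ^ (2 * s - 1) ≤ 4 * ex := h1.trans (Nat.mul_le_mul_left 4 h2)
      exact_mod_cast h4
    have h4 : (n : ℝ) ≤ 4 * ((2 * p : ℝ) ^ s) := by
      have h5 : n ≤ 4 * (2 * p) ^ s := hm2.le.trans (Nat.mul_le_mul_left 4 (Nat.pow_le_pow_left hmp s))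
      exact_mod_cast h5
    have h5 : (n : ℝ) ^ (2 - 1 / (s : ℝ)) ≤ 16 * (2 ^ (2 * s - 1) * (p : ℝ) ^ (2 * s - 1)) := by
      calc (n : ℝ) ^ (2 - 1 / (s : ℝ)) ≤ (4 * ((2 * p : ℝ) ^ s)) ^ (2 - 1 / (s : ℝ)) :=
            Real.rpow_le_rpow (by positivity) h4 hexp0
        _ = (4 : ℝ) ^ (2 - 1 / (s : ℝ)) * (2 * p : ℝ) ^ (2 * s - 1) := by
            rw [Real.mul_rpow (by norm_num) (by positivity), hpow _ (by positivity)]
        _ ≤ (4 : ℝ) ^ (2 : ℝ) * (2 * p : ℝ) ^ (2 * s - 1) := by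
            have : (4 : ℝ) ^ (2 - 1 / (s : ℝ)) ≤ (4 : ℝ) ^ (2 : ℝ) :=
              Real.rpow_le_rpow_of_exponent_le (by norm_num) hexp2
            gcongr
        _ = 16 * (2 ^ (2 * s - 1) * (p : ℝ) ^ (2 * s - 1)) := by
            rw [mul_pow, Real.rpow_two]
            norm_num
    calc min (1 / (64 * 2 ^ (2 * s - 1))) (1 / (N0 : ℝ) ^ 2) * (n : ℝ) ^ (2 - 1 / (s : ℝ)) ≤
          (1 / (64 * 2 ^ (2 * s - 1))) * (16 * (2 ^ (2 * s - 1) * (4 * (ex : ℝ)))) := by
            apply mul_le_mul (min_le_left _ _) (h5.trans (by gcongr)) hnn (by positivity)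
      _ = ex := by
        field_simp
        norm_num

theorem MAIN (hALG : S_ALG) (hFIN : S_FIN) : S_MAIN := by
  intro s t hs ht
  have hs0 : 0 < s := by omega
  have hsR : (2 : ℝ) ≤ s := by exact_mod_cast hs
  set r : ℝ := (s : ℝ) ^ (2 / 3 : ℝ) with hr
  have hr0 : 0 ≤ r := by positivity
  have hr3 : r ^ 3 = (s : ℝ) ^ 2 := by
    rw [hr, ← Real.rpow_natCast, ← Real.rpow_mul (by positivity), ← Real.rpow_natCast]
    norm_num
  set k : ℕ := max 6 ⌈2 * r⌉₊ with hk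
  have hk6 : 6 ≤ k := le_max_left _ _
  have hkr : 2 * r ≤ k := (Nat.le_ceil _).trans (by exact_mod_cast le_max_right _ _)
  have hk3 : 8 * s ^ 2 ≤ k ^ 3 := by
    have h1 : (2 * r) ^ 3 ≤ (k : ℝ) ^ 3 := by gcongr
    have h2 : (8 : ℝ) * (s : ℝ) ^ 2 ≤ (k : ℝ) ^ 3 := by
      rw [← hr3]
      calc (8 : ℝ) * r ^ 3 = (2 * r) ^ 3 := by ring
        _ ≤ _ := h1
    exact_mod_cast h2
  have hkup : (6 * k : ℝ) ≤ 12 * r + 36 := by
    have h1 : (k : ℝ) ≤ 2 * r + 6 := by
      rw [hk, Nat.cast_max]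
      apply max_le
      · push_cast
        linarith
      · have := (Nat.ceil_lt_add_one (by positivity : 0 ≤ 2 * r)).le
        linarith
    linarith
  have hcond : 2 * (s ^ 2 + 2 + k + k * s) ≤ k * (k + 3) * (k + 2) := by
    have h1 : 2 * (k * s) ≤ k ^ 2 + s ^ 2 := by
      have := two_mul_le_add_sq (k : ℤ) (s : ℤ)
      zify
      linarith
    nlinarith
  have he : 5 * s ≤ 4 * (s + (s + 3) / 4) := by omega
  have hlt : 2 ^ (s + (s + (s + 3) / 4)) * (s ^ 2 + s + 2) ^ (2 * k) < t := by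
    have h1 : s ^ 2 + s + 2 ≤ s ^ 3 := by nlinarith [Nat.mul_le_mul hs hs]
    have h2 : 2 ^ (s + (s + (s + 3) / 4)) * (s ^ 2 + s + 2) ^ (2 * k) ≤
        2 ^ (s + (s + (s + 3) / 4)) * s ^ (6 * k) := by
      calc 2 ^ (s + (s + (s + 3) / 4)) * (s ^ 2 + s + 2) ^ (2 * k) ≤
            2 ^ (s + (s + (s + 3) / 4)) * (s ^ 3) ^ (2 * k) := by gcongr
        _ = _ := by rw [← pow_mul]; ring_nf
    refine lt_of_le_of_lt h2 ?_
    have h3 : ((s + (s + (s + 3) / 4) : ℕ) : ℝ) ≤ 9 * (s : ℝ) / 4 + 1 := by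
      have h4 : 4 * (s + (s + (s + 3) / 4)) ≤ 9 * s + 3 := by omega
      have h5 : (4 : ℝ) * ((s + (s + (s + 3) / 4) : ℕ) : ℝ) ≤ 9 * s + 3 := by exact_mod_cast h4
      linarith
    have h4 : ((2 ^ (s + (s + (s + 3) / 4)) * s ^ (6 * k) : ℕ) : ℝ) < t := by
      refine lt_of_lt_of_le ?_ ht
      rw [Nat.cast_mul, Nat.cast_pow, Nat.cast_pow]
      have h5 : ((2 : ℕ) : ℝ) ^ (s + (s + (s + 3) / 4)) ≤
          (2 : ℝ) ^ (9 * (s : ℝ) / 4) * 2 := by
        rw [← Real.rpow_natCast]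
        calc ((2 : ℕ) : ℝ) ^ ((s + (s + (s + 3) / 4) : ℕ) : ℝ) ≤ (2 : ℝ) ^ (9 * (s : ℝ) / 4 + 1) := by
              push_cast only
              exact Real.rpow_le_rpow_of_exponent_le (by norm_num) h3
          _ = (2 : ℝ) ^ (9 * (s : ℝ) / 4) * 2 := by
              rw [Real.rpow_add (by norm_num), Real.rpow_one]
      have h6 : ((s : ℕ) : ℝ) ^ (6 * k) ≤ (s : ℝ) ^ (12 * r + 36) := by
        rw [← Real.rpow_natCast]
        apply Real.rpow_le_rpow_of_exponent_le (by linarith)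
        push_cast
        exact hkup
      have h7 : (s : ℝ) ^ (12 * r + 38) = (s : ℝ) ^ (12 * r + 36) * (s : ℝ) ^ 2 := by
        rw [← Real.rpow_natCast, ← Real.rpow_add (by linarith)]
        congr 1
        push_cast
        ring
      have h8 : 0 < (s : ℝ) ^ (12 * r + 36) := by positivity
      have h9 : 0 < (2 : ℝ) ^ (9 * (s : ℝ) / 4) := by positivity
      rw [h7]
      calc ((2 : ℕ) : ℝ) ^ (s + (s + (s + 3) / 4)) * ((s : ℕ) : ℝ) ^ (6 * k) ≤
            ((2 : ℝ) ^ (9 * (s : ℝ) / 4) * 2) * (s : ℝ) ^ (12 * r + 36) :=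
            mul_le_mul h5 h6 (by positivity) (by positivity)
        _ = (2 : ℝ) ^ (9 * (s : ℝ) / 4) * ((s : ℝ) ^ (12 * r + 36) * 2) := by ring
        _ < (2 : ℝ) ^ (9 * (s : ℝ) / 4) * ((s : ℝ) ^ (12 * r + 36) * (s : ℝ) ^ 2) := by
            have h10 : (2 : ℝ) < (s : ℝ) ^ 2 := by nlinarith
            gcongr
    exact_mod_cast h4
  exact hFIN s t hs (hALG s (s + (s + 3) / 4) k t hs he hk6 hcond hlt)

end Pool.Agent.N353.BK.FIN
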